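import Pool.Agent.Helper34.ZP.G4
import Pool.Agent.Helper34.ZP.G7

/-!
# The quantization law: odd powers
-/

universe u v w t

open CategoryTheory TensorProduct

namespace Pool.Agent.Helper56.QL

open Pool.Agent.Helper34.ZP Pool.Agent.Helper10 Pool.Agent.Helper11.Iso SmProjVar SPre

/-- subadditivity of the dimension modulo `N` -/
theorem odd_rdim_le {F V : Type*} [Field F] [AddCommGroup V] [Module F V] [Module.Finite F V]
    (N : Submodule F V) {T S S' : Submodule F V} (h : T ≤ S ⊔ S') :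
    rdim N T ≤ rdim N S + rdim N S' := by
  rw [rdim_eq, rdim_eq, rdim_eq]
  have h1 : T.map N.mkQ ≤ S.map N.mkQ ⊔ S'.map N.mkQ := by
    rw [← Submodule.map_sup]
    exact Submodule.map_mono h
  exact (Submodule.finrank_mono h1).trans (Submodule.finrank_add_le_finrank_add_finrank _ _)

variable {k : Type u} [Field k] {K : Type t} [Field K] {Ω : Type v} [Field Ω] [Algebra K Ω]
  {P : SPre.{u, v, w, t} k K Ω}

theorem odd_nr_le_add {Z W : SmProjVar k} (e : P.H Z →ₗ[Ω] P.H Z) :
    nr P (Z.prod W) ≤ rho P (tmap e (LinearMap.id : P.H W →ₗ[Ω] P.H W)) +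
      rho P (tmap (LinearMap.id - e) (LinearMap.id : P.H W →ₗ[Ω] P.H W)) := by
  have h1 : tmap e (LinearMap.id : P.H W →ₗ[Ω] P.H W) +
      tmap (LinearMap.id - e) (LinearMap.id : P.H W →ₗ[Ω] P.H W) = LinearMap.id := by
    refine hom_ext_ext fun x y => ?_
    rw [LinearMap.add_apply, tmap_ext, tmap_ext, ← ext_add_left, LinearMap.sub_apply,
      LinearMap.id_apply, LinearMap.id_apply, LinearMap.id_apply, add_sub_cancel]
  refine odd_rdim_le _ fun x hx => ?_
  have h2 := LinearMap.congr_fun h1 x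
  rw [LinearMap.add_apply, LinearMap.id_apply] at h2
  rw [← h2]
  exact Submodule.add_mem_sup ⟨x, hx, rfl⟩ ⟨x, hx, rfl⟩

/-- the idempotent `pull (fst) ∘ pull (diagonal)` -/
noncomputable def odd_e (P : SPre.{u, v, w, t} k K Ω) (X : SmProjVar k) :
    P.H (X.prod X) →ₗ[Ω] P.H (X.prod X) :=
  (P.pull (fst X X)).toLinearMap ∘ₗ (P.pull (lift (𝟙 X.toOver) (𝟙 X.toOver))).toLinearMap

theorem odd_diag (X : SmProjVar k) (x : P.H X) :
    P.pull (lift (𝟙 X.toOver) (𝟙 X.toOver)) (P.pull (fst X X) x) = x := by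
  rw [pull_pull, lift_fst, pull_id_apply]

theorem odd_e_mem (X : SmProjVar k) : odd_e P X ∈ Mor P (X.prod X) (X.prod X) :=
  G1_comp_mem (isMap_pull _) (isMap_pull _)

theorem odd_e_idem (X : SmProjVar k) : odd_e P X ∘ₗ odd_e P X = odd_e P X := by
  refine LinearMap.ext fun x => ?_
  change P.pull (fst X X) (P.pull (lift (𝟙 X.toOver) (𝟙 X.toOver)) (P.pull (fst X X)
    (P.pull (lift (𝟙 X.toOver) (𝟙 X.toOver)) x))) = _
  rw [odd_diag]
  rfl

theorem odd_finrank (X : SmProjVar k) :
    Module.finrank Ω (LinearMap.range (odd_e P X)) = Module.finrank Ω (P.H X) := by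
  have h1 : Function.Surjective (P.pull (lift (𝟙 X.toOver) (𝟙 X.toOver))).toLinearMap :=
    fun x => ⟨P.pull (fst X X) x, odd_diag X x⟩
  have h2 : Function.Injective (P.pull (fst X X)).toLinearMap := fun x y hxy => by
    rw [← odd_diag X x, ← odd_diag X y]
    exact congrArg _ hxy
  rw [odd_e, LinearMap.range_comp_of_range_eq_top _ (LinearMap.range_eq_top.2 h1),
    LinearMap.finrank_range_of_inj h2]

theorem odd_finrank_compl {F V : Type*} [Field F] [AddCommGroup V] [Module F V]
    [Module.Finite F V] {e : V →ₗ[F] V} (he : e ∘ₗ e = e) :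
    Module.finrank F (LinearMap.range (LinearMap.id - e)) + Module.finrank F (LinearMap.range e) =
      Module.finrank F V := by
  have h1 : LinearMap.range (LinearMap.id - e) = LinearMap.ker e := by
    ext x
    constructor
    · rintro ⟨y, rfl⟩
      have h2 := LinearMap.congr_fun he y
      rw [LinearMap.comp_apply] at h2
      rw [LinearMap.mem_ker, LinearMap.sub_apply, LinearMap.id_apply, map_sub, h2, sub_self]
    · intro hx
      refine ⟨x, ?_⟩
      rw [LinearMap.sub_apply, LinearMap.id_apply, LinearMap.mem_ker.1 hx, sub_zero]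
  rw [h1, add_comm]
  exact LinearMap.finrank_range_add_finrank_ker e

theorem odd_rho_le (X W : SmProjVar k) :
    rho P (tmap (odd_e P X) (LinearMap.id : P.H W →ₗ[Ω] P.H W)) ≤ nr P (X.prod W) := by
  let d : (X.prod W).toOver ⟶ ((X.prod X).prod W).toOver :=
    Pool.Agent.Helper11.Iso.prodMap (lift (𝟙 X.toOver) (𝟙 X.toOver)) (𝟙 W.toOver)
  let p : ((X.prod X).prod W).toOver ⟶ (X.prod W).toOver :=
    Pool.Agent.Helper11.Iso.prodMap (fst X X) (𝟙 W.toOver)
  have h1 : tmap (odd_e P X) (LinearMap.id : P.H W →ₗ[Ω] P.H W) =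
      (P.pull p).toLinearMap ∘ₗ (P.pull d).toLinearMap := by
    refine hom_ext_ext fun x y => ?_
    rw [tmap_ext]
    change _ = P.pull p (P.pull d (P.ext _ _ x y))
    rw [pull_prodMap_ext, pull_prodMap_ext, pull_id_apply, pull_id_apply]
    rfl
  refine rdim_le_of_map (P.pull p).toLinearMap (fun x hx _ => rad_pull p hx) fun y hy => ?_
  rw [h1] at hy
  obtain ⟨z, hz, rfl⟩ := hy
  refine ⟨P.pull d z, P.pull_mem d _ hz, ?_⟩
  change P.pull p (P.pull d z) - P.pull p (P.pull d z) ∈ _
  rw [sub_self]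
  exact zero_mem _

/-- (O) -/
theorem odd_le [CharZero Ω] (X Y : SmProjVar k) :
    nr P ((X.prod X).prod (Y.prod Y)) ≤ nr P (X.prod (Y.prod Y)) +
      (Module.finrank Ω (P.H X) ^ 2 - Module.finrank Ω (P.H X)) * nr P (Y.prod Y) := by
  have h1 := odd_nr_le_add (P := P) (Z := X.prod X) (W := Y.prod Y) (odd_e P X)
  have h2 := odd_rho_le (P := P) X (Y.prod Y)
  have h3 := rho_le (P := P) (X.prod X) Y (e := LinearMap.id - odd_e P X)
    (Submodule.sub_mem _ (G1_id_mem _) (odd_e_mem X)) (by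
      have h := odd_e_idem (P := P) X
      rw [LinearMap.sub_comp, LinearMap.comp_sub, LinearMap.comp_sub, h, LinearMap.id_comp,
        LinearMap.id_comp, LinearMap.comp_id, sub_self, sub_zero])
  have h4 := odd_finrank_compl (odd_e_idem (P := P) X)
  rw [odd_finrank, finrank_prod, ← pow_two] at h4
  have h5 : Module.finrank Ω (LinearMap.range (LinearMap.id - odd_e P X)) =
      Module.finrank Ω (P.H X) ^ 2 - Module.finrank Ω (P.H X) := by omega
  rw [h5] at h3
  exact h1.trans (Nat.add_le_add h2 h3)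

end Pool.Agent.Helper56.QL
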